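import Pool.Agent.W844.GP.Defs

/-!
# GP-LD: bridges of weight zero with positive probability make the rate zero
-/

set_option autoImplicit false

namespace Pool.Agent.W395.GP

open MeasureTheory Filter Topology Pool.Agent.W844.GP
open Pool.Agent.W844.VG (V)
open scoped ENNReal

variable {d : ℕ}

instance law_prob (ν : Measure ℝ) [IsProbabilityMeasure ν] (d : ℕ) :
    IsProbabilityMeasure (law ν d) := by
  unfold law; infer_instance

lemma YY_mono {w : V d → ℝ} {i : Fin d} {L L' R : ℕ} {c c' : ℝ} (hL : L ≤ L') (hc : c' ≤ c)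
    (h : YY w i L R c) : YY w i L' R c' := by
  obtain ⟨l, h1, h2, h3⟩ := h
  exact ⟨l, h1, h2.trans (Nat.mul_le_mul_right _ hL), hc.trans h3⟩

lemma VV_bdd (w : V d → ℝ) (i : Fin d) (L h : ℕ) (B : ℝ) :
    BddAbove {c : ℝ | c ≤ 0 ∧ (c ≤ -(B * h) ∨ YY w i L h c)} := ⟨0, fun _ hc => hc.1⟩

lemma neg_le_VV (w : V d → ℝ) (i : Fin d) (L h : ℕ) {B : ℝ} (hB : 0 ≤ B) :
    -(B * h) ≤ VV i L B h w := by
  refine le_csSup (VV_bdd w i L h B) ⟨?_, Or.inl le_rfl⟩
  have : 0 ≤ B * (h : ℝ) := mul_nonneg hB (Nat.cast_nonneg _)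
  linarith

lemma VV_le_zero (w : V d → ℝ) (i : Fin d) (L h : ℕ) {B : ℝ} (hB : 0 ≤ B) :
    VV i L B h w ≤ 0 := by
  refine csSup_le ⟨-(B * h), ?_, Or.inl le_rfl⟩ fun c hc => hc.1
  have : 0 ≤ B * (h : ℝ) := mul_nonneg hB (Nat.cast_nonneg _)
  linarith

lemma le_VV {w : V d → ℝ} {i : Fin d} {L h : ℕ} {B c : ℝ} (hc : c ≤ 0) (hY : YY w i L h c) :
    c ≤ VV i L B h w := le_csSup (VV_bdd w i L h B) ⟨hc, Or.inr hY⟩

lemma VV_int (hm : S_MEAS) (ν : Measure ℝ) [IsProbabilityMeasure ν] (i : Fin d) (L h : ℕ) {B : ℝ}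
    (hB : 0 ≤ B) : Integrable (fun w => VV i L B h w) (law ν d) := by
  refine Integrable.of_bound ((hm d).2.2.2.2.2.1 i L B h).aestronglyMeasurable (B * h)
    (Eventually.of_forall fun w => ?_)
  rw [Real.norm_eq_abs, abs_le]
  exact ⟨neg_le_VV w i L h hB, (VV_le_zero w i L h hB).trans
    (mul_nonneg hB (Nat.cast_nonneg _))⟩

/-- frequently the rate is at least `-x`, up to `e` -/
def P (ν : Measure ℝ) (i : Fin d) (B : ℝ) (L : ℕ) (x : ℝ) : Prop :=
  ∀ e : ℝ, 0 < e → ∃ᶠ h : ℕ in atTop, -x - e ≤ aa ν i L B h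

lemma P_base (hm : S_MEAS) (ν : Measure ℝ) [IsProbabilityMeasure ν] (i : Fin d) (L : ℕ) {B : ℝ}
    (hB : 0 ≤ B) : P ν i B L B := by
  intro e he
  refine Eventually.frequently ?_
  filter_upwards [eventually_gt_atTop 0] with h hh
  have hh' : (0 : ℝ) < h := by exact_mod_cast hh
  unfold aa
  rw [le_div_iff₀ hh']
  have h1 : -(B * h) ≤ ∫ w, VV i L B h w ∂law ν d := by
    have h2 := integral_mono (μ := law ν d) (integrable_const (-(B * (h : ℝ))))
      (VV_int hm ν i L h hB) (fun w => neg_le_VV w i L h hB)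
    simpa using h2
  nlinarith

lemma P_step (hC : S_CLB) (hm : S_MEAS) (ν : Measure ℝ) [IsProbabilityMeasure ν] (i : Fin d)
    {T B : ℝ} {L : ℕ} (hH : Hyp ν i T B L) {L0 : ℕ} {δ : ℝ} (hδ : 0 < δ) (hδ1 : δ ≤ 1)
    (hF : ∃ᶠ R : ℕ in atTop, ENNReal.ofReal δ ≤ law ν d {w | YY w i L0 R 0})
    {L' : ℕ} (hL : L ≤ L') (hL0 : L0 ≤ L') {x : ℝ} (hx : 0 ≤ x) (hP : P ν i B L' x) :
    P ν i B (2 * L') ((1 - δ) * x) := by
  intro e he
  obtain ⟨hd, hT, hT', hB, hL1, hlim⟩ := hH
  have hH' : Hyp ν i T B L' := by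
    refine ⟨hd, hT, hT', hB, hL1.trans hL, ?_⟩
    refine tendsto_of_tendsto_of_tendsto_of_le_of_le tendsto_const_nhds hlim
      (fun _ => zero_le) (fun h => ?_)
    exact measure_mono fun w hw hY => hw (YY_mono hL le_rfl hY)
  set η : ℝ := e / (2 * (B + 1)) with hη
  have hη0 : 0 < η := by positivity
  obtain ⟨h0, hh0⟩ := hC d i ν T B L' hH' (e / 4) η (by positivity) hη0
  obtain ⟨h, hh, ha⟩ := (hP (e / 4) (by positivity)).forall_exists_of_atTop h0
  obtain ⟨R0, hR0⟩ := hh0 h hh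
  rw [frequently_atTop]
  intro N
  obtain ⟨R, hR, hRδ⟩ := hF.forall_exists_of_atTop (max N (max R0 1))
  have hRN : N ≤ R := (le_max_left _ _).trans hR
  have hRR : R0 ≤ R := (le_max_left _ _).trans ((le_max_right _ _).trans hR)
  have hR1 : 1 ≤ R := (le_max_right _ _).trans ((le_max_right _ _).trans hR)
  refine ⟨R, hRN, ?_⟩
  have hRpos : (0 : ℝ) < R := by exact_mod_cast hR1
  have hη1 := hR0 R hRR
  set c1 : ℝ := -(x + e / 4 + e / 4) with hc1
  have hc1' : c1 ≤ 0 := by rw [hc1]; linarith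
  set A0 : Set (V d → ℝ) := {w | YY w i L0 R 0} with hA0
  set A1 : Set (V d → ℝ) := {w | ¬ YY w i (2 * L') R ((aa ν i L' B h - e / 4) * R)} with hA1
  have mA0 : MeasurableSet A0 := (hm d).2.2.2.2.1 i L0 R 0
  have mA1 : MeasurableSet A1 := ((hm d).2.2.2.2.1 i (2 * L') R _).compl
  have pA0 : δ ≤ (law ν d).real A0 := by
    rw [Measure.real, ← ENNReal.ofReal_le_iff_le_toReal (measure_ne_top _ _)]
    exact hRδ
  have pA1 : (law ν d).real A1 ≤ η := by
    rw [Measure.real]
    exact ENNReal.toReal_le_of_le_ofReal hη0.le hη1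
  -- pointwise bound
  have hpt : ∀ w, c1 * R - c1 * R * A0.indicator (fun _ => (1 : ℝ)) w
      - B * R * A1.indicator (fun _ => (1 : ℝ)) w ≤ VV i (2 * L') B R w := by
    intro w
    have hBR : 0 ≤ B * R := mul_nonneg hB hRpos.le
    have hcR : c1 * R ≤ 0 := mul_nonpos_of_nonpos_of_nonneg hc1' hRpos.le
    by_cases w0 : w ∈ A0
    · have : (0 : ℝ) ≤ VV i (2 * L') B R w := le_VV le_rfl (YY_mono (by omega) le_rfl w0)
      rw [Set.indicator_of_mem w0]
      have h1 : 0 ≤ A1.indicator (fun _ => (1 : ℝ)) w :=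
        Set.indicator_nonneg (fun _ _ => zero_le_one) w
      have h2 := mul_nonneg hBR h1
      linarith
    · rw [Set.indicator_of_notMem w0]
      by_cases w1 : w ∈ A1
      · rw [Set.indicator_of_mem w1]
        have := neg_le_VV w i (2 * L') R hB
        linarith
      · rw [Set.indicator_of_notMem w1]
        have hY : YY w i (2 * L') R ((aa ν i L' B h - e / 4) * R) := not_not.1 w1
        have hle : c1 * R ≤ (aa ν i L' B h - e / 4) * R := by
          refine mul_le_mul_of_nonneg_right ?_ hRpos.le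
          rw [hc1]
          linarith
        have := le_VV (B := B) hcR (YY_mono le_rfl hle hY)
        linarith
  have i0 : Integrable (fun w => c1 * R * A0.indicator (fun _ => (1 : ℝ)) w) (law ν d) :=
    ((integrable_const (1 : ℝ)).indicator mA0).const_mul _
  have i1 : Integrable (fun w => B * R * A1.indicator (fun _ => (1 : ℝ)) w) (law ν d) :=
    ((integrable_const (1 : ℝ)).indicator mA1).const_mul _
  have hint : c1 * R - c1 * R * (law ν d).real A0 - B * R * (law ν d).real A1 ≤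
      ∫ w, VV i (2 * L') B R w ∂law ν d := by
    have i2 : Integrable (fun w => c1 * R - c1 * R * A0.indicator (fun _ => (1 : ℝ)) w)
        (law ν d) := (integrable_const (c1 * (R : ℝ))).sub i0
    have i3 : Integrable (fun w => c1 * R - c1 * R * A0.indicator (fun _ => (1 : ℝ)) w
      - B * R * A1.indicator (fun _ => (1 : ℝ)) w) (law ν d) := i2.sub i1
    have h2 := integral_mono (μ := law ν d) i3 (VV_int hm ν i (2 * L') R hB) hpt
    refine le_trans (le_of_eq ?_) h2
    have e1 : ∫ w, A0.indicator (fun _ => (1 : ℝ)) w ∂law ν d = (law ν d).real A0 := by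
      rw [integral_indicator mA0]
      simp
    have e2 : ∫ w, A1.indicator (fun _ => (1 : ℝ)) w ∂law ν d = (law ν d).real A1 := by
      rw [integral_indicator mA1]
      simp
    have e3 : ∫ w, c1 * R * A0.indicator (fun _ => (1 : ℝ)) w ∂law ν d =
        c1 * R * (law ν d).real A0 := by
      rw [integral_const_mul, e1]
    have e4 : ∫ w, B * R * A1.indicator (fun _ => (1 : ℝ)) w ∂law ν d =
        B * R * (law ν d).real A1 := by
      rw [integral_const_mul, e2]
    rw [integral_sub i2 i1, integral_sub (integrable_const (c1 * (R : ℝ))) i0, e3, e4]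
    simp
  unfold aa
  rw [le_div_iff₀ hRpos]
  refine le_trans ?_ hint
  have k1 : B * (law ν d).real A1 ≤ e / 2 := by
    have h1 : B * (law ν d).real A1 ≤ B * η := mul_le_mul_of_nonneg_left pA1 hB
    have h2 : B * η ≤ e / 2 := by
      rw [hη]
      rw [mul_div_assoc', div_le_div_iff₀ (by positivity) (by norm_num)]
      nlinarith
    exact h1.trans h2
  have k2 : (1 - δ) * c1 ≤ c1 - c1 * (law ν d).real A0 := by
    nlinarith
  have k3 : -((1 - δ) * x) - e / 2 ≤ (1 - δ) * c1 := by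
    rw [hc1]
    nlinarith
  have k4 : -((1 - δ) * x) - e ≤ c1 - c1 * (law ν d).real A0 - B * (law ν d).real A1 := by
    linarith
  have k5 := mul_le_mul_of_nonneg_right k4 hRpos.le
  refine k5.trans (le_of_eq ?_)
  ring

/-- GP-LD -/
theorem t_LD (hC : S_CLB) (hm : S_MEAS) : S_LD := by
  intro d i ν _ T B L hH L0 δ hδ hF ε hε
  have hB : 0 ≤ B := hH.2.2.2.1
  have hδ1 : δ ≤ 1 := by
    obtain ⟨R, hR⟩ := hF.exists
    have h1 : ENNReal.ofReal δ ≤ 1 := hR.trans prob_le_one
    exact ENNReal.ofReal_le_one.1 h1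
  set L1 := max L L0 with hL1
  have hP : ∀ k : ℕ, P ν i B (2 ^ k * L1) ((1 - δ) ^ k * B) := by
    intro k
    induction k with
    | zero => simpa using P_base hm ν i L1 hB
    | succ k ih =>
      have h1 : L1 ≤ 2 ^ k * L1 := Nat.le_mul_of_pos_left _ (by positivity)
      have h2 := P_step hC hm ν i hH hδ hδ1 hF ((le_max_left L L0).trans h1)
        ((le_max_right L L0).trans h1) (mul_nonneg (pow_nonneg (by linarith) k) hB) ih
      have e1 : 2 ^ (k + 1) * L1 = 2 * (2 ^ k * L1) := by ring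
      have e2 : (1 - δ) ^ (k + 1) * B = (1 - δ) * ((1 - δ) ^ k * B) := by ring
      rw [e1, e2]
      exact h2
  have hlim : Tendsto (fun k : ℕ => (1 - δ) ^ k * B) atTop (𝓝 (0 * B)) :=
    (tendsto_pow_atTop_nhds_zero_of_lt_one (by linarith) (by linarith)).mul_const B
  rw [zero_mul] at hlim
  obtain ⟨k, hk⟩ := (hlim.eventually (gt_mem_nhds (show (0 : ℝ) < ε / 2 by positivity))).exists
  refine ⟨2 ^ k * L1, (le_max_left L L0).trans (Nat.le_mul_of_pos_left _ (by positivity)), ?_⟩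
  refine (hP k (ε / 2) (by positivity)).mono fun h hh => ?_
  linarith

end Pool.Agent.W395.GP
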